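import Pool.Agent.H72.PSV.T2

/-!
# MP_3cf473_nt, board `psv_modules`, MAT: the combinatorial step
-/

set_option autoImplicit false

open Finset Filter

namespace Pool.Agent.H35.PSV.MAT

open Pool.Agent.H72.PSV

/-- the constants -/
def cc (f : ℕ → ℕ → ℕ → ℕ) (d ρ c : ℕ) : ℕ → ℕ
  | 0 => c
  | k + 1 => f ρ (cc f d ρ c k) d

theorem pf_MAT (hFBS : T_FBS) (hFST : T_FST) (hFCT : T_FCT) (hRPO : T_RPO) : T_MAT := by
  classical
  intro r n d
  choose fst hfst using hFST
  choose fct hfct using hFCT
  refine ⟨n * (r + 2), (Finset.range (n * (r + 2) + 1)).sup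
    (fun ρ => fct ρ (cc fst d ρ 1 (r + 2))), ?_⟩
  intro K F _ _ _ t α y hH
  by_contra hcon
  push Not at hcon
  have step : ∀ k : ℕ, ∀ B0 : Finset α, B0.card + k ≤ r + 2 → ∃ U Bk : Finset α, Bk ⊆ U ∧
      Bk.card = k ∧ U.card ≤ n * k ∧ Disjoint U B0 ∧ ∀ W : Finset α, U \ Bk ⊆ W →
      ∀ (ρ c : ℕ) (Φ : Filt K F ρ c), (∀ i, t i ∈ Φ.G 1) → (∀ w ∈ W, y w ∈ Φ.G 1) →
      ∃ Φ' : Filt K F ρ (cc fst d ρ c k), (∀ n, 1 ≤ n → Φ.G n ≤ Φ'.G n) ∧
        ∀ u ∈ U ∪ W, y u ∈ Φ'.G 1 := by
    intro k
    induction k with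
    | zero =>
      intro B0 _
      refine ⟨∅, ∅, Finset.Subset.refl _, rfl, by simp, by simp, ?_⟩
      intro W _ ρ c Φ _ hw
      exact ⟨Φ, fun _ _ => le_rfl, fun u hu => hw u (by simpa using hu)⟩
    | succ k ih =>
      intro B0 hB0
      obtain ⟨A, hAi, hAB, hA⟩ := hcon B0 (by omega)
      obtain ⟨p, hp⟩ := hRPO r n d K F t (fun i => y (A i)) hA
      obtain ⟨U', B', hBU, hBc, hUc, hUd, hU⟩ := ih (insert (A p) B0) (by
        rw [Finset.card_insert_of_notMem (hAB p)]
        omega)
      have hpU : A p ∉ U' := fun h =>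
        Finset.disjoint_left.1 hUd h (Finset.mem_insert_self _ _)
      have hpB : A p ∉ B' := fun h => hpU (hBU h)
      refine ⟨U' ∪ Finset.univ.image A, insert (A p) B', ?_, ?_, ?_, ?_, ?_⟩
      · intro x hx
        rcases Finset.mem_insert.1 hx with h | h
        · rw [h]
          exact Finset.mem_union_right _ (Finset.mem_image_of_mem _ (Finset.mem_univ _))
        · exact Finset.mem_union_left _ (hBU h)
      · rw [Finset.card_insert_of_notMem hpB, hBc]
      · refine (Finset.card_union_le _ _).trans ?_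
        have h1 : (Finset.univ.image A).card ≤ n := by
          refine Finset.card_image_le.trans ?_
          simp
        rw [Nat.mul_succ]
        omega
      · rw [Finset.disjoint_union_left]
        constructor
        · exact Finset.disjoint_of_subset_right (Finset.subset_insert _ _) hUd
        · rw [Finset.disjoint_left]
          intro x hx
          obtain ⟨i, -, rfl⟩ := Finset.mem_image.1 hx
          exact hAB i
      · intro W hW ρ c Φ ht hw
        have hW' : U' \ B' ⊆ W := by
          intro x hx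
          rw [Finset.mem_sdiff] at hx
          refine hW (Finset.mem_sdiff.2 ⟨Finset.mem_union_left _ hx.1, ?_⟩)
          intro h
          rcases Finset.mem_insert.1 h with h | h
          · exact hpU (h ▸ hx.1)
          · exact hx.2 h
        obtain ⟨Φ', hle, hy⟩ := hU W hW' ρ c Φ ht hw
        have key : ∀ q, A q ≠ A p → y (A q) ∈ Φ'.G 1 := by
          intro q hq
          refine hy _ ?_
          by_cases hqB : A q ∈ insert (A p) B'
          · rcases Finset.mem_insert.1 hqB with h | h
            · exact absurd h hq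
            · exact Finset.mem_union_left _ (hBU h)
          · refine Finset.mem_union_right _ (hW (Finset.mem_sdiff.2 ⟨?_, hqB⟩))
            exact Finset.mem_union_right _ (Finset.mem_image_of_mem _ (Finset.mem_univ _))
        obtain ⟨a, ha1, ha2, ha3⟩ := hp ρ _ Φ' (fun i => hle 1 le_rfl (ht i))
          (fun q hq => key q (fun h => hq.ne (hAi h)))
        obtain ⟨Φ'', hle', hyp⟩ := hfst ρ _ d K F Φ' (y (A p)) a ha1 ha2 ha3
        refine ⟨Φ'', fun m hm => (hle m hm).trans (hle' m hm), ?_⟩
        intro u hu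
        rcases Finset.mem_union.1 hu with h | h
        · rcases Finset.mem_union.1 h with h | h
          · exact hle' 1 le_rfl (hy u (Finset.mem_union_left _ h))
          · obtain ⟨q, -, rfl⟩ := Finset.mem_image.1 h
            by_cases hq : A q = A p
            · rw [hq]
              exact hyp
            · exact hle' 1 le_rfl (key q hq)
        · exact hle' 1 le_rfl (hy u (Finset.mem_union_right _ h))
  -- the end
  obtain ⟨U, B, hBU, hBc, hUc, -, hU⟩ := step (r + 2) ∅ (by simp)
  obtain ⟨w, hw⟩ : ∃ w : ℕ, w = (U \ B).card := ⟨_, rfl⟩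
  have hUw : U.card = r + w + 2 := by
    have h1 := Finset.card_sdiff_add_card_eq_card hBU
    omega
  obtain ⟨Φ, hΦ⟩ := hFBS (r + w) K F
    (Fin.append t (fun j => y ((U \ B).equivFin.symm (Fin.cast hw j)).1))
  obtain ⟨Φ', -, hy⟩ := hU (U \ B) (Finset.Subset.refl _) (r + w) 1 Φ (fun i => by
      have := hΦ (Fin.castAdd w i)
      rwa [Fin.append_left] at this) (fun x hx => by
      have := hΦ (Fin.natAdd r (Fin.cast hw.symm ((U \ B).equivFin ⟨x, hx⟩)))
      rw [Fin.append_right] at this
      simpa using this)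
  have hm : r + w + 1 ≤ n * (r + 2) := by omega
  obtain ⟨i₀, hi₀⟩ := hH (r + w + 1) hm
    (fun i => (U.equivFin.symm (Fin.cast hUw.symm i)).1) (by
      intro i j hij
      have h1 := U.equivFin.symm.injective (Subtype.ext hij)
      exact Fin.cast_injective _ h1)
  obtain ⟨Q, hQ0, hQD, hQ⟩ := hfct (r + w) _ K F Φ'
    (fun i : Fin (r + w + 1) =>
      y (U.equivFin.symm (Fin.cast hUw.symm (i₀.succAbove i))).1 -
        y (U.equivFin.symm (Fin.cast hUw.symm i₀)).1) (fun i => by
      exact (Φ'.G 1).sub_mem (hy _ (Finset.mem_union_left _ (Subtype.property _)))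
        (hy _ (Finset.mem_union_left _ (Subtype.property _))))
  refine hi₀ Q hQ0 (hQD.trans ?_) hQ
  exact Finset.le_sup (f := fun ρ => fct ρ (cc fst d ρ 1 (r + 2)))
    (Finset.mem_range.2 (by omega))

end Pool.Agent.H35.PSV.MAT
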